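import Pool.Agent.Shared.RUP.Basic

/-!
A faster variant of the RUP checker. The kernel hashes a numeral by its low 64 bits, so these
bits of all large numbers carry a salt: literal `l` sits at bit `l + 64`, clause masks carry a
salt in the bits `2..33`, the working mask in the bits `34..63`.
-/

namespace Pool.Agent.Shared.RUP2

open Pool.Agent.Shared.RUP

noncomputable def unit (r G : ℕ) (k : ℕ → Bool) : Bool :=
  Bool.rec (motive := fun _ => Bool)
    (Bool.rec (motive := fun _ => Bool) false
      (force (Nat.xor G (Nat.shiftRight (Nat.shiftLeft r 3) (Nat.shiftLeft (Nat.mod r 3) 1))) k)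
      (Nat.beq (Nat.land r (Nat.sub r 1)) 0)) true (Nat.beq r 0)

noncomputable def rup (w B : ℕ) (db : DB) (fuel : ℕ) : ℕ → ℕ → Bool :=
  Nat.rec (motive := fun _ => ℕ → ℕ → Bool) (fun _ _ => false)
    (fun _ ih hs G =>
      force (Nat.land hs B) fun i => unit (Nat.land (get i db) G) G fun G' =>
        force (Nat.shiftRight hs w) fun hs' => ih hs' G') fuel

noncomputable def run (w B U : ℕ) (steps : List ℕ) : DB → (DB → Bool) → Bool :=
  List.rec (motive := fun _ => DB → (DB → Bool) → Bool) (fun db k => k db)
    (fun code _ ih db k =>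
      force (Nat.mod code 1073741789) fun s =>
      dec w B 1000000 code (Nat.shiftLeft s 2) fun c rest =>
        Bool.rec (motive := fun _ => Bool) false
          (Bool.rec (motive := fun _ => Bool)
            (force (Nat.land rest B) fun t => ins t c db fun db' => ih db' k) true
            (Nat.beq (Nat.land c U) 0))
          (force (Nat.lor (Nat.land (Nat.xor U c) U) (Nat.shiftLeft s 34)) fun G =>
            force (Nat.shiftRight rest w) fun hs => rup w B db 100000000 hs G)) steps

noncomputable def runs (w B U : ℕ) (ss : List (List ℕ)) : DB → Bool :=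
  List.rec (motive := fun _ => DB → Bool) (fun _ => false)
    (fun s _ ih db => run w B U s db ih) ss

noncomputable def mask (C : List ℕ) : ℕ :=
  List.rec (motive := fun _ => ℕ) 0 (fun l _ ih => Nat.lor (Nat.shiftLeft 1 (Nat.add l 64)) ih) C

noncomputable def maskS (C : List ℕ) : ℕ :=
  Nat.lor (mask C) (Nat.shiftLeft (Nat.mod (mask C) 1073741789) 2)

def uu (n : ℕ) : ℕ := Nat.lor (Nat.shiftLeft (Nat.pred (Nat.shiftLeft 1 n)) 64) 3

/-- `n` literal codes, digit width `w`, trie depth `d`; inputs go to the slots `1, 2, ...` -/
noncomputable def check (n w d : ℕ) (inp steps : List (List ℕ)) : Bool :=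
  force (uu n) fun U =>
  force (Nat.pred (Nat.shiftLeft 1 w)) fun B =>
  mk d fun db0 => load maskS U inp 1 db0 fun _ db1 => runs w B U steps db1

theorem rup_ok {a : ℕ → Bool} {U : ℕ} (w B : ℕ) (db : DB) (ho : Ok a U db) :
    ∀ (n hs G : ℕ), (∀ i, U.testBit i = true → lit a i = true → G.testBit i = true) →
      rup w B db n hs G = true → False := by
  intro n
  induction n with
  | zero => intro hs G _ h; exact absurd h (by simp [rup])
  | succ n ih =>
    intro hs G hG h
    change (force (Nat.land hs B) fun i => unit (Nat.land (get i db) G) G fun G' =>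
        force (Nat.shiftRight hs w) fun hs' => rup w B db n hs' G') = true at h
    simp only [force_eq, unit] at h
    obtain ⟨i, h1, h2, h3⟩ := get_ok (Nat.land hs B) db ho
    have h4 : (Nat.land (get (Nat.land hs B) db) G).testBit i = true := by
      change (_ &&& _ : ℕ).testBit i = true
      rw [Nat.testBit_and, h1, hG i h2 h3]; rfl
    generalize Nat.land (get (Nat.land hs B) db) G = r at h h4
    rcases r with _ | m
    · simp at h4
    cases e : Nat.beq (Nat.land (m + 1) (Nat.sub (m + 1) 1)) 0 with
    | false => rw [e] at h; exact Bool.false_ne_true h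
    | true =>
      rw [e] at h
      obtain ⟨k, hk⟩ := pow_of_land_pred m (Nat.eq_of_beq_eq_true e)
      rw [hk] at h h4
      rw [Nat.testBit_two_pow, decide_eq_true_eq] at h4
      subst h4
      obtain ⟨j, b1, b2⟩ := neg_mask a k h3
      have e0 : Nat.beq (2 ^ k) 0 = false := by rw [← hk]; rfl
      rw [e0] at h
      refine ih _ _ (fun l a1 a2 => ?_) h
      change (G ^^^ ((2 ^ k) <<< 3) >>> (((2 ^ k) % 3) <<< 1)).testBit l = true
      rw [b1, Nat.testBit_xor, hG l a1 a2, Nat.testBit_two_pow,
        decide_eq_false fun e => by rw [← e, b2] at a2; simp at a2]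
      rfl

theorem run_ok {a : ℕ → Bool} {U : ℕ} (w B : ℕ) (k : DB → Bool)
    (hk : ∀ db, Ok a U db → k db = true → False) :
    ∀ (steps : List ℕ) (db : DB), Ok a U db → run w B U steps db k = true → False := by
  intro steps
  induction steps with
  | nil => intro db ho h; exact hk db ho h
  | cons code tl ih =>
    intro db ho h
    change (force (Nat.mod code 1073741789) fun s =>
      dec w B 1000000 code (Nat.shiftLeft s 2) fun c rest =>
        Bool.rec (motive := fun _ => Bool) false
          (Bool.rec (motive := fun _ => Bool)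
            (force (Nat.land rest B) fun t => ins t c db fun db' => run w B U tl db' k) true
            (Nat.beq (Nat.land c U) 0))
          (force (Nat.lor (Nat.land (Nat.xor U c) U) (Nat.shiftLeft s 34)) fun G =>
            force (Nat.shiftRight rest w) fun hs => rup w B db 100000000 hs G)) = true at h
    rw [force_eq] at h
    obtain ⟨rest, hr⟩ := dec_ok _ _ _ _ _ _ h
    generalize decF w B 1000000 code _ = c at hr
    simp only [force_eq] at hr
    generalize Nat.shiftLeft (Nat.mod code 1073741789) 34 = s at hr
    cases hrup : rup w B db 100000000 (Nat.shiftRight rest w)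
      (Nat.lor (Nat.land (Nat.xor U c) U) s) with
    | false => rw [hrup] at hr; exact absurd hr (by simp)
    | true =>
      rw [hrup] at hr
      have hs : SatU a U c := by
        by_contra hn
        refine rup_ok w B db ho _ _ _ (fun i hU hl => ?_) hrup
        change (((U ^^^ c) &&& U) ||| s).testBit i = true
        rw [Nat.testBit_or, Nat.testBit_and, Nat.testBit_xor, hU]
        cases hci : c.testBit i with
        | false => rfl
        | true => exact absurd ⟨i, hci, hU, hl⟩ hn
      cases e : Nat.beq (Nat.land c U) 0 with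
      | false =>
        rw [e] at hr
        obtain ⟨t', h1, h2⟩ := ins_ok _ c hs db _ ho hr
        exact ih _ h1 h2
      | true =>
        obtain ⟨i, h1, h2, -⟩ := hs
        have := congrArg (fun n => n.testBit i) (Nat.eq_of_beq_eq_true e)
        change (c &&& U).testBit i = _ at this
        simp [h1, h2] at this

theorem runs_ok {a : ℕ → Bool} {U : ℕ} (w B : ℕ) :
    ∀ (ss : List (List ℕ)) (db : DB), Ok a U db → runs w B U ss db = true → False := by
  intro ss
  induction ss with
  | nil => intro db _ h; exact absurd h (by simp [runs])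
  | cons s tl ih => intro db ho h; exact run_ok w B _ ih s db ho h

theorem load_ok {α : Type} {a : ℕ → Bool} (f : α → ℕ) (U : ℕ) :
    ∀ (xs : List α) (s : ℕ) (db : DB) (k : ℕ → DB → Bool),
    (∀ x ∈ xs, f x ≤ U → SatU a U (f x)) → Ok a U db → load f U xs s db k = true →
      ∃ s' db', Ok a U db' ∧ k s' db' = true := by
  intro xs
  induction xs with
  | nil => intro s db k _ ho h; exact ⟨s, db, ho, h⟩
  | cons x tl ih =>
    intro s db k hx ho h
    change (force (f x) fun c =>
        Bool.rec (motive := fun _ => Bool) false
          (ins s c db fun db' => force (Nat.succ s) fun s' => load f U tl s' db' k)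
          (Nat.ble c U)) = true at h
    rw [force_eq] at h
    cases hb : Nat.ble (f x) U with
    | false => rw [hb] at h; exact absurd h (by simp)
    | true =>
      rw [hb] at h
      obtain ⟨t', h1, h2⟩ := ins_ok _ _ (hx x (by simp) (Nat.le_of_ble_eq_true hb)) db _ ho h
      rw [force_eq] at h2
      exact ih _ _ _ (fun y hy => hx y (by simp [hy])) h1 h2

theorem testBit_mask {C : List ℕ} {l : ℕ} (h : l ∈ C) : (mask C).testBit (l + 64) = true := by
  induction C with
  | nil => simp at h
  | cons x tl ih =>
    change ((1 <<< (x + 64)) ||| mask tl).testBit _ = true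
    rw [Nat.testBit_or]
    rcases List.mem_cons.1 h with rfl | h
    · simp [Nat.shiftLeft_eq]
    · simp [ih h]

theorem uu_bit (n i : ℕ) : (uu n).testBit i = true ↔ (64 ≤ i ∧ i < n + 64) ∨ i < 2 := by
  change ((((1 <<< n) - 1) <<< 64) ||| (2 ^ 2 - 1)).testBit i = true ↔ _
  rw [Nat.one_shiftLeft, Nat.testBit_or, Nat.testBit_shiftLeft, Nat.testBit_two_pow_sub_one,
    Nat.testBit_two_pow_sub_one]
  simp only [Bool.or_eq_true, Bool.and_eq_true, decide_eq_true_eq]
  omega

/-- a formula with a checked refutation has no model -/
theorem check_ok {n w d : ℕ} {inp steps : List (List ℕ)} (h : check n w d inp steps = true)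
    (a : ℕ → Bool) (hin : ∀ C ∈ inp, ∃ l ∈ C, lit a l = true) : False := by
  unfold check at h
  rw [force_eq, force_eq] at h
  have h3 : SatU (fun v => a (v - 32)) (uu n) 3 := by
    cases h0 : a 0 with
    | true => exact ⟨0, by decide, (uu_bit _ _).2 (by omega), by simp [lit, h0]⟩
    | false => exact ⟨1, by decide, (uu_bit _ _).2 (by omega), by simp [lit, h0]⟩
  obtain ⟨db0, h01, h02⟩ := mk_ok h3 _ _ h
  suffices H : ∀ C ∈ inp, maskS C ≤ uu n → SatU (fun v => a (v - 32)) (uu n) (maskS C) by
    obtain ⟨s1, db1, h11, h12⟩ := load_ok maskS _ _ _ _ _ H h01 h02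
    exact runs_ok _ _ _ _ h11 h12
  intro C hC hle
  obtain ⟨l, h1, h2⟩ := hin C hC
  have h4 : (maskS C).testBit (l + 64) = true := by
    change (mask C ||| _).testBit _ = true
    rw [Nat.testBit_or, testBit_mask h1]; rfl
  refine ⟨l + 64, h4, (uu_bit _ _).2 (Or.inl ⟨by omega, ?_⟩), ?_⟩
  · have h5 : uu n < 2 ^ (n + 64) := Nat.lt_pow_two_of_testBit _ fun i hi => by
      rw [Bool.eq_false_iff, Ne, uu_bit]; omega
    exact (Nat.pow_lt_pow_iff_right (by norm_num)).1
      (((Nat.ge_two_pow_of_testBit h4).trans hle).trans_lt h5)
  · have e1 : (l + 64) % 2 = l % 2 := by omega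
    have e2 : (l + 64) / 2 - 32 = l / 2 := by omega
    simpa only [lit, e1, e2] using h2

end Pool.Agent.Shared.RUP2
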